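import Mathlib
import Pool.Agent.Q67.GreedyFamily5

/-! No bound `p ≤ c / ‖2 α‖` holds for the period of the greedy sign sequence. -/

namespace Pool.Agent.Results.MP_c62c12_an.UnboundedPeriods

open Q67.GreedyWalk

/-- For every `c > 0` there are an irrational `α > 0` and a starting point, admissible, whose
greedy sign sequence is eventually periodic with (least) period `p > c / ‖2 α‖`. -/
theorem result : ∀ c : ℝ, 0 < c → ∃ (α : ℝ) (z : ℂ), 0 < α ∧ Irrational α ∧ Admissible α z ∧
    ∃ p : ℕ, IsLeast {p | IsEventualPeriod (sgn α z) p} p ∧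
      c / |2 * α - round (2 * α)| < p :=
  fun c _ => Q67.GreedyFamily.main c

end Pool.Agent.Results.MP_c62c12_an.UnboundedPeriods
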